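import Pool.Agent.Q120.SPI.Dim

/-!
# The box dimension of spirals at degenerate foci with unequal exponents

The answer to the question is yes: for odd `m > n` and `k ≥ 1` every spiral trajectory near the
origin has box dimension `2 - (1 + n / m) / (1 + 2 k n)`.

Along a trajectory put `G = (x^(2m) + y^(2n))^(-k)`. In the coordinates `X = x^m`, `Y = y^n` one gets
`X = G^(-1/2k) cos (G / 2k + α)`, `Y = ± G^(-1/2k) sin (G / 2k + α)` with a constant `α`, and `G` runs
monotonically to infinity. With `ε = η^(2nk+1)` the area of the `ε`-neighbourhood is comparable to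
`η^(1+n/m)`: the part with `G ≥ η^(-2nk)` is in the rectangle `|x| ≤ η^(n/m)`, `|y| ≤ η`, the other
part is covered by squares, quarter turn by quarter turn; and a fixed fraction of the rectangle is
within distance `ε` of the trajectory.
-/

set_option autoImplicit false

namespace Pool.Agent.Results.MP_7e532d_an.SpiralDimension

open Set MeasureTheory Filter Topology Pool.Agent.Q120.SPI

/-- A spiral trajectory near the origin for `σ = -1`: the part in a small neighbourhood `U` of the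
origin of a trajectory, defined for `t > t₀`, which tends to the origin for `t → ∞`. Small means
that the trajectory is outside `U` for the times between `t₀` and some `t₁ > t₀`. -/
def SpiralNeg (m n k : ℕ) (S : Set (ℝ × ℝ)) : Prop :=
  ∃ (x y : ℝ → ℝ) (t₀ t₁ : ℝ) (U : Set (ℝ × ℝ)), t₀ < t₁ ∧
    (∀ t > t₀, Solves m n k (-1) x y t) ∧ (∀ t > t₀, (x t, y t) ≠ (0, 0)) ∧
    Tendsto (fun t => (x t, y t)) atTop (𝓝 (0, 0)) ∧ U ∈ 𝓝 ((0 : ℝ), (0 : ℝ)) ∧
    (∀ t, t₀ < t → t < t₁ → (x t, y t) ∉ U) ∧ S = {p | p ∈ U ∧ ∃ t > t₀, p = (x t, y t)}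

/-- A spiral trajectory near the origin for `σ = 1`: the same for a trajectory, defined for
`t < t₀`, which tends to the origin for `t → -∞`. -/
def SpiralPos (m n k : ℕ) (S : Set (ℝ × ℝ)) : Prop :=
  ∃ (x y : ℝ → ℝ) (t₀ t₁ : ℝ) (U : Set (ℝ × ℝ)), t₁ < t₀ ∧
    (∀ t < t₀, Solves m n k 1 x y t) ∧ (∀ t < t₀, (x t, y t) ≠ (0, 0)) ∧
    Tendsto (fun t => (x t, y t)) atBot (𝓝 (0, 0)) ∧ U ∈ 𝓝 ((0 : ℝ), (0 : ℝ)) ∧
    (∀ t, t₁ < t → t < t₀ → (x t, y t) ∉ U) ∧ S = {p | p ∈ U ∧ ∃ t < t₀, p = (x t, y t)}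

/-- The upper Minkowski dimension. -/
noncomputable def upperDim (S : Set (ℝ × ℝ)) : ℝ :=
  2 - liminf (fun ε : ℝ => Real.log (volume (nhd S ε)).toReal / Real.log ε) (𝓝[>] 0)

/-- The lower Minkowski dimension. -/
noncomputable def lowerDim (S : Set (ℝ × ℝ)) : ℝ :=
  2 - limsup (fun ε : ℝ => Real.log (volume (nhd S ε)).toReal / Real.log ε) (𝓝[>] 0)

theorem result (m n k : ℕ) (hm : Odd m) (hn : Odd n) (hmn : n < m) (hk : 1 ≤ k)
    (S : Set (ℝ × ℝ)) (hS : SpiralNeg m n k S ∨ SpiralPos m n k S) :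
    upperDim S = 2 - (1 + (n : ℝ) / m) / (1 + 2 * k * n) ∧
    lowerDim S = 2 - (1 + (n : ℝ) / m) / (1 + 2 * k * n) ∧
    Tendsto (fun ε : ℝ => Real.log (volume (nhd S ε)).toReal / Real.log ε) (𝓝[>] 0)
      (𝓝 ((1 + (n : ℝ) / m) / (1 + 2 * k * n))) := by
  have h : Tendsto (fun ε : ℝ => Real.log (volume (nhd S ε)).toReal / Real.log ε) (𝓝[>] 0)
      (𝓝 ((1 + (n : ℝ) / m) / (1 + 2 * k * n))) := by
    rcases hS with ⟨x, y, t₀, t₁, U, ht, hsol, hne, hlim, hU, hU', rfl⟩ |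
      ⟨x, y, t₀, t₁, U, ht, hsol, hne, hlim, hU, hU', rfl⟩
    · exact exponent_neg hm hn hmn.le hk ht hsol hne hlim hU hU'
    · exact exponent_pos hm hn hmn.le hk ht hsol hne hlim hU hU'
  refine ⟨?_, ?_, h⟩
  · unfold upperDim
    rw [h.liminf_eq]
  · unfold lowerDim
    rw [h.limsup_eq]

end Pool.Agent.Results.MP_7e532d_an.SpiralDimension
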